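import Mathlib
import Pool.Agent.H203R4.DF.Stmts

/-! Task Act of the project H203DF: isometric actions extend to `ℓ¹(G)`. -/

set_option autoImplicit false

namespace Pool.Agent.H203R4.DF

universe u

open H263R3.Arens

theorem taskAct : TaskAct.{u} := by
  intro G _ E _ _ _ a hmul hnorm
  let ω : Weight G := Weight.trivial G
  let φ : WAlg G ω →ₗ[ℂ] (E →L[ℂ] E) :=
    { toFun := fun x => Finsupp.linearCombination ℂ a (MonoidAlgebra.coeff x)
      map_add' := by
        intro x y
        have h1 : MonoidAlgebra.coeff (x + y) = MonoidAlgebra.coeff x + MonoidAlgebra.coeff y :=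
          rfl
        rw [h1, map_add]
      map_smul' := by
        intro c x
        have h1 : MonoidAlgebra.coeff (c • x) = c • MonoidAlgebra.coeff x := rfl
        rw [h1, map_smul]
        rfl }
  have hφs : ∀ s, φ (sgl ω s 1) = a s := by
    intro s
    have e1 : φ (sgl ω s 1) = Finsupp.linearCombination ℂ a (Finsupp.single s (1 : ℂ)) := rfl
    rw [e1, Finsupp.linearCombination_single, one_smul]
  have hφ : ∀ x, ‖φ x‖ ≤ 1 * ‖x‖ := by
    intro x
    rw [one_mul]
    have e1 : φ x = ∑ s ∈ (MonoidAlgebra.coeff x).support, (MonoidAlgebra.coeff x) s • a s := rfl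
    rw [e1, norm_WAlg, wnorm_eq ω x _ subset_rfl]
    refine (norm_sum_le _ _).trans (Finset.sum_le_sum fun s _ => ?_)
    rw [norm_smul]
    refine mul_le_mul_of_nonneg_left ?_ (norm_nonneg _)
    have h1 : ω.toFun s = 1 := rfl
    rw [h1]
    exact ContinuousLinearMap.opNorm_le_bound _ zero_le_one
      (fun x => by rw [one_mul]; exact hnorm s x)
  let ψ : WAlg G ω →L[ℂ] (E →L[ℂ] E) := φ.mkContinuous 1 hφ
  have hψ : ∀ x, ψ x = φ x := fun x => rfl
  have hsgl : ∀ s t : G, sgl ω s 1 * sgl ω t 1 = sgl ω (s * t) 1 := by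
    intro s t
    have h := MonoidAlgebra.single_mul_single (R := ℂ) s t 1 1
    rw [mul_one] at h
    exact h
  have hex : ∀ x : WAlg G ω, ∃ (S : Finset G) (c : G → ℂ), x = ∑ s ∈ S, c s • sgl ω s 1 :=
    fun x => ⟨_, _, walg_eq_sum ω x⟩
  have hm1 : ∀ s t : G, φ (sgl ω s 1 * sgl ω t 1) = φ (sgl ω s 1) * φ (sgl ω t 1) := by
    intro s t
    rw [hsgl, hφs, hφs, hφs]
    ext x
    exact hmul s t x
  have hm2 : ∀ (s : G) (y : WAlg G ω), φ (sgl ω s 1 * y) = φ (sgl ω s 1) * φ y := by
    intro s y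
    obtain ⟨S, c, hy⟩ := hex y
    have e1 : sgl ω s 1 * y = ∑ t ∈ S, c t • sgl ω (s * t) 1 := by
      rw [hy]
      refine (Finset.mul_sum S (fun t => c t • sgl ω t 1) (sgl ω s 1)).trans ?_
      refine Finset.sum_congr rfl fun t _ => ?_
      exact (mul_smul_comm (c t) (sgl ω s 1) (sgl ω t 1)).trans (congrArg (c t • ·) (hsgl s t))
    rw [e1, hy, map_sum, map_sum, Finset.mul_sum]
    refine Finset.sum_congr rfl fun t _ => ?_
    rw [map_smul, map_smul, mul_smul_comm, ← hm1, hsgl]
  have hm3 : ∀ x y : WAlg G ω, φ (x * y) = φ x * φ y := by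
    intro x y
    obtain ⟨S, c, hx⟩ := hex x
    have e1 : x * y = ∑ t ∈ S, c t • (sgl ω t 1 * y) := by
      rw [hx]
      refine (Finset.sum_mul S (fun t => c t • sgl ω t 1) y).trans ?_
      refine Finset.sum_congr rfl fun t _ => ?_
      exact smul_mul_assoc (c t) (sgl ω t 1) y
    rw [e1, hx, map_sum, map_sum, Finset.sum_mul]
    refine Finset.sum_congr rfl fun t _ => ?_
    rw [map_smul, map_smul, smul_mul_assoc, hm2]
  let T : Alg G →L[ℂ] (E →L[ℂ] E) :=
    ψ.extend (UniformSpace.Completion.toComplL (𝕜 := ℂ) (E := WAlg G ω))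
  have hT : ∀ x : WAlg G ω, T (x : UniformSpace.Completion (WAlg G ω)) = φ x := by
    intro x
    have := ContinuousLinearMap.extend_eq ψ (e := UniformSpace.Completion.toComplL)
      UniformSpace.Completion.denseRange_coe
      (UniformSpace.Completion.isUniformInducing_coe _) x
    exact this
  have hTm : ∀ b c : Alg G, T (b * c) = T b * T c := by
    intro b c
    induction b, c using UniformSpace.Completion.induction_on₂ with
    | hp => exact isClosed_eq (by fun_prop) (by fun_prop)
    | ih x y => rw [← UniformSpace.Completion.coe_mul, hT, hT, hT, hm3]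
  refine ⟨fun b x => T b x, T.isBoundedBilinearMap, ?_, ?_⟩
  · intro b c x
    show T (b * c) x = T b (T c x)
    rw [hTm]
    rfl
  · intro g x
    show T (dg1 g) x = a g x
    have h1 : T (dg1 g) = φ (sgl ω g 1) := hT (sgl ω g 1)
    rw [h1, hφs]

end Pool.Agent.H203R4.DF
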